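import Pool.Agent.Y743.CC.Stm
import Pool.Agent.H382R2.Final0
import Pool.Agent.H965R2.SI.CountShort

/-!
Project CC (helper743), job CC-ME: the mean of the number of ordinates of zeros of `ζ` in the
windows `(t, t + h]`, `A ≤ t ≤ B`, for `[A, B + 1]` in `[T, 2 T]`.
-/

set_option autoImplicit false

open MeasureTheory Filter

namespace Pool.Agent.Y37.CCME

/-- `log ^ 2 x ≤ 4 x` -/
theorem log_sq_le {x : ℝ} (hx : 1 ≤ x) : (Real.log x) ^ 2 ≤ 4 * x := by
  have h0 : 0 < x := by linarith
  have h1 : Real.log x = 2 * Real.log (Real.sqrt x) := by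
    rw [Real.log_sqrt h0.le]; ring
  have h2 : Real.log (Real.sqrt x) ≤ Real.sqrt x :=
    (Real.log_le_sub_one_of_pos (Real.sqrt_pos.2 h0)).trans (by linarith)
  have h3 : 0 ≤ Real.log x := Real.log_nonneg hx
  have h4 : Real.log x ≤ 2 * Real.sqrt x := by rw [h1]; linarith
  have h5 : (Real.log x) ^ 2 ≤ (2 * Real.sqrt x) ^ 2 := pow_le_pow_left₀ h3 h4 2
  rw [mul_pow, Real.sq_sqrt h0.le] at h5
  linarith

/-- increments of the counting function in `[T, 2T]` -/
theorem diff_bound (N : ℝ → ℕ) (hm : Monotone N) (C : ℝ) (hC : 0 < C)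
    (hN : ∀ x : ℝ, 10 ≤ x → ∀ H : ℝ, 3 ≤ H → H ≤ x →
      |((N (x + H) : ℝ) - N x) - H * Real.log x / (2 * Real.pi)| ≤
        C * (H + (Real.log x) ^ 2)) :
    ∀ T : ℝ, 10 ≤ T → ∀ x y : ℝ, T ≤ x → x ≤ y → y ≤ 2 * T →
      |((N y : ℝ) - N x) - (y - x) * Real.log T / (2 * Real.pi)| ≤ (20 * C + 20) * T := by
  intro T hT x y hx hxy hy
  have hpi := Real.pi_gt_three
  have hx10 : 10 ≤ x := hT.trans hx
  have hl2 : (Real.log x) ^ 2 ≤ 8 * T := (log_sq_le (by linarith)).trans (by linarith)
  have hlT : 0 ≤ Real.log T := Real.log_nonneg (by linarith)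
  have hlx : 0 ≤ Real.log x := Real.log_nonneg (by linarith)
  have hlTx : Real.log T ≤ Real.log x := Real.log_le_log (by linarith) hx
  have hlx2 : Real.log x ≤ Real.log T + 1 := by
    have h1 : Real.log x ≤ Real.log (2 * T) := Real.log_le_log (by linarith) (by linarith)
    rw [Real.log_mul (by norm_num) (by linarith)] at h1
    linarith [Real.log_two_lt_d9]
  have hlTT : Real.log T ≤ T := (Real.log_le_sub_one_of_pos (by linarith)).trans (by linarith)
  have hp : 0 < 2 * Real.pi := by linarith
  have div_le : ∀ a : ℝ, 0 ≤ a → a / (2 * Real.pi) ≤ a := fun a ha =>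
    div_le_self ha (by linarith)
  by_cases h3 : 3 ≤ y - x
  · have h1 := hN x hx10 (y - x) h3 (by linarith)
    rw [add_sub_cancel] at h1
    have h2 : |(y - x) * Real.log x / (2 * Real.pi) - (y - x) * Real.log T / (2 * Real.pi)| ≤
        T := by
      rw [← sub_div, ← mul_sub, abs_of_nonneg (div_nonneg (mul_nonneg (by linarith)
        (by linarith)) hp.le)]
      refine (div_le _ (mul_nonneg (by linarith) (by linarith))).trans ?_
      nlinarith
    have h4 := abs_sub_le ((N y : ℝ) - N x) ((y - x) * Real.log x / (2 * Real.pi))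
      ((y - x) * Real.log T / (2 * Real.pi))
    have h5 : C * (y - x + (Real.log x) ^ 2) ≤ C * (9 * T) := by
      apply mul_le_mul_of_nonneg_left _ hC.le
      linarith
    have h6 : 0 ≤ C * T := by positivity
    linarith
  · push Not at h3
    have h1 := hN x hx10 3 le_rfl (by linarith)
    have m1 : (N x : ℝ) ≤ N y := by exact_mod_cast hm hxy
    have m2 : (N y : ℝ) ≤ N (x + 3) := by exact_mod_cast hm (by linarith)
    have h2 := (abs_le.1 h1).2
    have h4 : 3 * Real.log x / (2 * Real.pi) ≤ 3 * Real.log x := div_le _ (by positivity)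
    have h5 : C * (3 + (Real.log x) ^ 2) ≤ C * (9 * T) := by
      apply mul_le_mul_of_nonneg_left _ hC.le
      linarith
    have h6 : 0 ≤ C * T := by positivity
    have h7 : 0 ≤ (y - x) * Real.log T / (2 * Real.pi) :=
      div_nonneg (mul_nonneg (by linarith) hlT) hp.le
    have h8 : (y - x) * Real.log T / (2 * Real.pi) ≤ 3 * T := by
      refine (div_le _ (mul_nonneg (by linarith) hlT)).trans ?_
      nlinarith
    rw [abs_le]
    constructor
    · linarith
    · linarith

/-- the mean of the increments -/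
theorem mean_bound (N : ℝ → ℕ) (hm : Monotone N) (D : ℝ)
    (hN : ∀ T : ℝ, 10 ≤ T → ∀ x y : ℝ, T ≤ x → x ≤ y → y ≤ 2 * T →
      |((N y : ℝ) - N x) - (y - x) * Real.log T / (2 * Real.pi)| ≤ D * T) :
    ∀ T : ℝ, 10 ≤ T → ∀ h : ℝ, 0 < h → h ≤ 1 → ∀ A B : ℝ, T ≤ A → A ≤ B → B + 1 ≤ 2 * T →
    |(∫ t in A..B, ((N (t + h) : ℝ) - N t)) - h * ((B - A) * Real.log T / (2 * Real.pi))| ≤
      (D + 1) * h * T := by
  intro T hT h h0 h1 A B hA hAB hB
  have hpi := Real.pi_gt_three
  have hp : 0 < 2 * Real.pi := by linarith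
  have hlT : 0 ≤ Real.log T := Real.log_nonneg (by linarith)
  have hlTT : Real.log T ≤ T := (Real.log_le_sub_one_of_pos (by linarith)).trans (by linarith)
  have hmR : Monotone fun t : ℝ => (N t : ℝ) := fun a b hab => by
    show (N a : ℝ) ≤ N b
    exact_mod_cast hm hab
  have hi : ∀ a b : ℝ, IntervalIntegrable (fun t : ℝ => (N t : ℝ)) volume a b := fun a b =>
    hmR.intervalIntegrable
  have hi2 : IntervalIntegrable (fun t : ℝ => (N (t + h) : ℝ)) volume A B := by
    have : Monotone fun t : ℝ => (N (t + h) : ℝ) := fun a b hab => hmR (by linarith)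
    exact this.intervalIntegrable
  have e1 : ∫ t in A..B, ((N (t + h) : ℝ) - N t) =
      (∫ t in B..(B + h), (N t : ℝ)) - ∫ t in A..(A + h), (N t : ℝ) := by
    rw [intervalIntegral.integral_sub hi2 (hi A B),
      intervalIntegral.integral_comp_add_right (fun t : ℝ => (N t : ℝ)) h]
    have h2 := intervalIntegral.integral_add_adjacent_intervals (hi A (A + h)) (hi (A + h) (B + h))
    have h3 := intervalIntegral.integral_add_adjacent_intervals (hi A B) (hi B (B + h))
    linarith
  have up : ∀ a : ℝ, ∫ t in a..(a + h), (N t : ℝ) ≤ h * N (a + h) := by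
    intro a
    have := intervalIntegral.integral_mono_on (g := fun _ => (N (a + h) : ℝ))
      (by linarith : a ≤ a + h) (hi a (a + h)) (by simp) (fun t ht => hmR ht.2)
    rw [intervalIntegral.integral_const, smul_eq_mul] at this
    simpa using this
  have lo : ∀ a : ℝ, h * N a ≤ ∫ t in a..(a + h), (N t : ℝ) := by
    intro a
    have := intervalIntegral.integral_mono_on (f := fun _ => (N a : ℝ))
      (by linarith : a ≤ a + h) (by simp) (hi a (a + h)) (fun t ht => hmR ht.1)
    rw [intervalIntegral.integral_const, smul_eq_mul] at this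
    simpa using this
  have u := up B
  have l := lo B
  have u' := up A
  have l' := lo A
  have b1 : (N (B + h) : ℝ) - N A ≤ (B - A) * Real.log T / (2 * Real.pi) + (D + 1) * T := by
    have h2 := (abs_le.1 (hN T hT A (B + h) hA (by linarith) (by linarith))).2
    have h3 : (B + h - A) * Real.log T / (2 * Real.pi) =
        (B - A) * Real.log T / (2 * Real.pi) + h * Real.log T / (2 * Real.pi) := by ring
    have h4 : h * Real.log T / (2 * Real.pi) ≤ T := by
      rw [div_le_iff₀ hp]
      nlinarith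
    rw [h3] at h2
    linarith
  have b2 : (B - A) * Real.log T / (2 * Real.pi) - (D + 1) * T ≤ (N B : ℝ) - N (A + h) := by
    have h3 : (B - A) * Real.log T / (2 * Real.pi) =
        (B - (A + h)) * Real.log T / (2 * Real.pi) + h * Real.log T / (2 * Real.pi) := by ring
    have h4 : h * Real.log T / (2 * Real.pi) ≤ T := by
      rw [div_le_iff₀ hp]
      nlinarith
    rcases le_total (A + h) B with hc | hc
    · have h2 := (abs_le.1 (hN T hT (A + h) B (by linarith) hc (by linarith))).1
      linarith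
    · have h2 := (abs_le.1 (hN T hT B (A + h) (by linarith) hc (by linarith))).2
      have h5 : (A + h - B) * Real.log T / (2 * Real.pi) =
        -((B - (A + h)) * Real.log T / (2 * Real.pi)) := by ring
      rw [h5] at h2
      linarith
  have c1 := mul_le_mul_of_nonneg_left b1 h0.le
  have c2 := mul_le_mul_of_nonneg_left b2 h0.le
  rw [e1, abs_le]
  constructor
  · linarith
  · linarith

/-- **The mean of the number of ordinates in the windows.** -/
theorem me : Pool.Agent.Y743.CC.S_ME := by
  obtain ⟨C, hC, h⟩ := H965SI.nn_asymp_short H370.good_zeta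
  have hstep : ∀ a b : ℝ, 1 ≤ a → a ≤ b →
      (SG.NZ a : ℝ) + (H370.NN riemannZeta a b : ℝ) ≤ SG.NZ b := by
    intro a b ha hab
    have hfin := H370.zset_finite H370.good_zeta a b ha
    have e : H370.NN riemannZeta a b = ∑ s ∈ hfin.toFinset, H370.mult riemannZeta s := by
      unfold H370.NN
      exact finsum_mem_eq_finite_toFinset_sum _ hfin
    have h1 := SG.NZ_add_le a b hab hfin.toFinset (by
      intro s hs
      rw [Set.Finite.mem_toFinset] at hs
      obtain ⟨a1, a2, a3, a4, a5⟩ := hs
      exact ⟨⟨a5, a1, a2, by linarith, a4⟩, a3⟩)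
    rw [e]
    exact_mod_cast h1
  have hN : ∀ x : ℝ, 10 ≤ x → ∀ H : ℝ, 3 ≤ H → H ≤ x →
      |((SG.NZ (x + H) : ℝ) - SG.NZ x) - H * Real.log x / (2 * Real.pi)| ≤
        C * (H + (Real.log x) ^ 2) := by
    intro x hx H h3 hH
    have h1 := h x hx H h3 hH x (x + H) le_rfl (by linarith) (by linarith) le_rfl
    have h2 := hstep x (x + H) (by linarith) (by linarith)
    have h4 : (SG.NZ (x + H) : ℝ) ≤ SG.NZ x + H370.NN riemannZeta x (x + H) := by
      exact_mod_cast SG.NZ_le_add x (x + H) (by linarith)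
    have h5 : (SG.NZ (x + H) : ℝ) - SG.NZ x = H370.NN riemannZeta x (x + H) := by linarith
    rw [h5]
    exact h1
  have h2 := diff_bound SG.NZ SG.NZ_mono C hC hN
  exact ⟨20 * C + 20 + 1, 10, by positivity, le_rfl,
    mean_bound SG.NZ SG.NZ_mono (20 * C + 20) h2⟩

end Pool.Agent.Y37.CCME
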